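import Pool.Agent.helper37.F2.Spec2

/-!
# FNP: every rational number in `(1, 2)` is an exponent, for all large powers of one rooted graph
-/

set_option autoImplicit false

namespace Pool.Agent.F2T

open Pool.Agent.helper23.TH Pool.Agent.F2

/-- FNP -/
theorem FNP (hTS : TS_stmt) (hT0 : T0_stmt) (hTA : TA_stmt) (hTV : TV_stmt) (hPL : PL_stmt) (hUB : UB_stmt)
    (hM : MONO_stmt) : ∀ r : ℚ, 1 < r → r < 2 → ∃ T : Rooted, T.Balanced ∧ 1 ≤ T.v ∧ 1 ≤ T.e ∧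
      2 * (T.v : ℚ) = r * T.e ∧ (∀ p, (T.pw p).Colorable 2) ∧
      ∃ p₀ : ℕ, ∀ p : ℕ, p₀ ≤ p → Law (T.pw p) (r : ℝ) := by
  intro r hr1 hr2
  have ha0 : 0 < 1 - r / 2 := by linarith
  have ha1 : 1 - r / 2 < 1 := by linarith
  obtain ⟨T, hB, hI1, hE1, hIE, hST⟩ := hTA Good hT0 hTS (1 - r / 2) ha0.le ha1
  obtain ⟨T', hv, he, hbal, hcol, htwo⟩ := hTV T
  have hv1 : 1 ≤ T'.v := by rw [hv]; exact hI1
  have he1 : 1 ≤ T'.e := by rw [he]; exact hE1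
  have heQ : (0 : ℚ) < (T'.e : ℚ) := by exact_mod_cast he1
  have hve : (T'.v : ℚ) = (T'.e : ℚ) * (r / 2) := by
    rw [hv, he, hIE]
    ring
  have h2 : T'.e ≤ 2 * T'.v := by
    have h3 : (T'.e : ℚ) ≤ 2 * (T'.v : ℚ) := by
      rw [hve]
      nlinarith
    exact_mod_cast h3
  have hexp : 2 * ((T'.v : ℕ) : ℝ) / ((T'.e : ℕ) : ℝ) = (r : ℝ) := by
    have h3 : ((T'.v : ℕ) : ℝ) = ((T'.e : ℕ) : ℝ) * ((r : ℝ) / 2) := by exact_mod_cast hve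
    have h4 : ((T'.e : ℕ) : ℝ) ≠ 0 := by
      have : (0 : ℝ) < ((T'.e : ℕ) : ℝ) := by exact_mod_cast he1
      exact this.ne'
    rw [h3]
    field_simp
  obtain ⟨p₀, C, hC, N, hup⟩ := hUB T' (hbal hB) hv1 he1 h2
  have ha0R : (0 : ℝ) < ((1 - r / 2 : ℚ) : ℝ) := by exact_mod_cast ha0
  have ha1R : ((1 - r / 2 : ℚ) : ℝ) < 1 := by exact_mod_cast ha1
  have hexp2 : 2 - 2 * ((1 - r / 2 : ℚ) : ℝ) = (r : ℝ) := by
    push_cast
    ring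
  refine ⟨T', hbal hB, hv1, he1, by rw [hve]; ring, hcol, p₀ + 1, fun p hp => ?_⟩
  obtain ⟨c, hc, N', hlow⟩ := hPL (T.pwH p) ((1 - r / 2 : ℚ) : ℝ) ha0R ha1R (hST p (by omega))
  refine ⟨c, C, hc, hC, max N N', fun n hn => ⟨?_, fun m χ h1 h3 => ?_⟩⟩
  · obtain ⟨m, hm, χ, h1, h3⟩ := hup n ((le_max_left _ _).trans hn)
    rw [hexp] at hm
    exact ⟨m, hm, χ, h1, fun h4 => h3 (hM T' p₀ p (by omega) _ _ χ h4)⟩
  · have h4 := hlow n ((le_max_right _ _).trans hn) m χ h1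
      (fun h5 => h3 (htwo p _ _ χ h1.symm h5))
    rw [hexp2] at h4
    exact h4

end Pool.Agent.F2T
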