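import Pool.Agent.helper90.KS.Spec

/-!
# MP_26dbae_co: every rational in (1,2) is an exponent of `f_2(n, H)`: definitions

A host is a finite graph with vertex labels and edge labels. The pair graph of a proper colouring is a
host with two vertex labels (the two entries of a pair) and no edge label. `L_t(F)`: every edge of the
bipartite graph `F` is replaced by a path with `t` edges, one new vertex is joined to all vertices of
the first side of `F` and one new vertex to all vertices of the second side.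
-/

set_option autoImplicit false

open scoped BigOperators

namespace Pool.Agent.RXF

open Pool.Agent.helper23.TH

noncomputable section

open Classical

/-! ### Hosts -/

/-- graph with vertex labels `p i` (adjacent vertices have different labels, the neighbours of a
vertex have different labels) and symmetric edge labels `lam j` (the edges at a vertex have different
labels) -/
structure Host {V X Y ι κ : Type} (A : V → V → Prop) (p : ι → V → X) (lam : κ → V → V → Y) :
    Prop where
  symm : ∀ v w, A v w → A w v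
  ne : ∀ i v w, A v w → p i v ≠ p i w
  inj : ∀ i v w w', A v w → A v w' → p i w = p i w' → w = w'
  lsymm : ∀ j v w, lam j v w = lam j w v
  linj : ∀ j v w w', A v w → A v w' → lam j v w = lam j v w' → w = w'

/-- bipartite graph: the edge `e` joins `a e` (side `true`) and `b e` (side `false`) -/
structure BG where
  W : Type
  E : Type
  [fW : Fintype W]
  [fE : Fintype E]
  side : W → Bool
  a : E → W
  b : E → W

attribute [instance] BG.fW BG.fE

/-- `F` is a simple connected bipartite graph with an edge: the sides are as announced, an edge is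
given by its ends, every vertex lies on an edge, and `side` is up to exchange of the sides the only
2-colouring of `F` -/
structure BG.Ok (F : BG) : Prop where
  sa : ∀ e, F.side (F.a e) = true
  sb : ∀ e, F.side (F.b e) = false
  inj : ∀ e e', F.a e = F.a e' → F.b e = F.b e' → e = e'
  cov : ∀ w, ∃ e, F.a e = w ∨ F.b e = w
  ne : Nonempty F.E
  rigid : ∀ s : F.W → Bool, (∀ e, s (F.a e) ≠ s (F.b e)) → s = F.side ∨ s = fun w => !F.side w

/-- copy of `F` in a host: the labels of the vertices are different, the labels of the edges are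
different -/
def Copy {V X Y ι κ : Type} (F : BG) (A : V → V → Prop) (p : ι → V → X) (lam : κ → V → V → Y) :
    Prop :=
  ∃ g : F.W → V, (∀ e, A (g (F.a e)) (g (F.b e))) ∧
    (∀ i, Function.Injective fun w => p i (g w)) ∧
    ∀ j, Function.Injective fun e => lam j (g (F.a e)) (g (F.b e))

/-- `HC F a`: every host with `N` vertices and sum of the degrees at least `K N^(1+a)` has a copy of
`F`, where `K` depends on the number of labels only -/
def HC (F : BG) (a : ℝ) : Prop :=
  ∀ (ι κ : Type) [Fintype ι] [Fintype κ] [Nonempty ι], ∃ K : ℝ, 0 < K ∧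
    ∀ (V X Y : Type) [Fintype V] (A : V → V → Prop) (p : ι → V → X) (lam : κ → V → V → Y),
      Host A p lam → 0 < Fintype.card V →
      K * (Fintype.card V : ℝ) ^ (1 + a) ≤ ∑ v, (dg A Finset.univ v : ℝ) → Copy F A p lam

/-- `RC F a`: every graph with `N` vertices, a fixed number of proper edge colourings and sum of the
degrees at least `K N^(1+a)` has a copy of `F` which is rainbow for all colourings -/
def RC (F : BG) (a : ℝ) : Prop :=
  ∀ (κ : Type) [Fintype κ], ∃ K : ℝ, 0 < K ∧
    ∀ (V Y : Type) [Fintype V] (A : V → V → Prop) (lam : κ → V → V → Y),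
      Host A (fun (_ : Unit) (v : V) => v) lam → 0 < Fintype.card V →
      K * (Fintype.card V : ℝ) ^ (1 + a) ≤ ∑ v, (dg A Finset.univ v : ℝ) →
      Copy F A (fun (_ : Unit) (v : V) => v) lam

/-! ### The operation `L_t` on bipartite graphs -/

/-- vertex at distance `i` from `a e` on the path which replaces `e` -/
def BG.pos (F : BG) (t : ℕ) (e : F.E) (i : ℕ) : F.W ⊕ ((F.E × Fin (t - 1)) ⊕ Bool) :=
  if h : 1 ≤ i ∧ i < t then .inr (.inl (e, ⟨i - 1, by omega⟩))
  else if i = 0 then .inl (F.a e) else .inl (F.b e)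

/-- the sides of `L_t(F)` -/
def BG.lside (F : BG) (t : ℕ) : F.W ⊕ ((F.E × Fin (t - 1)) ⊕ Bool) → Bool
  | .inl w => if F.side w = true then true else decide (t % 2 = 0)
  | .inr (.inl (_, i)) => decide ((i.1 + 1) % 2 = 0)
  | .inr (.inr s) => if s = true then false else decide (t % 2 = 1)

/-- the ends of the edges of `L_t(F)`: the edges `(e, i)` of the paths, and the edges between `w` and
the new vertex which belongs to the side of `w` -/
def BG.lends (F : BG) (t : ℕ) : (F.E × Fin t) ⊕ F.W →
    (F.W ⊕ ((F.E × Fin (t - 1)) ⊕ Bool)) × (F.W ⊕ ((F.E × Fin (t - 1)) ⊕ Bool))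
  | .inl (e, i) => (F.pos t e i.1, F.pos t e (i.1 + 1))
  | .inr w => (.inl w, .inr (.inr (F.side w)))

/-- `L_t(F)` -/
def BG.L (F : BG) (t : ℕ) : BG where
  W := F.W ⊕ ((F.E × Fin (t - 1)) ⊕ Bool)
  E := (F.E × Fin t) ⊕ F.W
  side := F.lside t
  a x := if F.lside t (F.lends t x).1 = true then (F.lends t x).1 else (F.lends t x).2
  b x := if F.lside t (F.lends t x).1 = true then (F.lends t x).2 else (F.lends t x).1

/-- the data of a copy of `L_t(F)`: images `g` of the vertices of `F`, `hub` of the two new vertices,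
`P e i` of the vertex at distance `i` on the path which replaces `e` -/
structure LCopy {V X Y ι κ : Type} (F : BG) (t : ℕ) (A : V → V → Prop) (p : ι → V → X)
    (lam : κ → V → V → Y) (g : F.W → V) (hub : Bool → V) (P : F.E → ℕ → V) : Prop where
  p0 : ∀ e, P e 0 = g (F.a e)
  pt : ∀ e, P e t = g (F.b e)
  adj : ∀ e i, i < t → A (P e i) (P e (i + 1))
  leg : ∀ w, A (g w) (hub (F.side w))
  vgg : ∀ i w w', w ≠ w' → p i (g w) ≠ p i (g w')
  vhh : ∀ i, p i (hub true) ≠ p i (hub false)
  vgh : ∀ i w s, p i (g w) ≠ p i (hub s)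
  vgp : ∀ i w e a, 1 ≤ a → a < t → p i (g w) ≠ p i (P e a)
  vhp : ∀ i s e a, 1 ≤ a → a < t → p i (hub s) ≠ p i (P e a)
  vpp : ∀ i e a e' a', 1 ≤ a → a < t → 1 ≤ a' → a' < t → (e, a) ≠ (e', a') →
    p i (P e a) ≠ p i (P e' a')
  ell : ∀ j w w', w ≠ w' → lam j (g w) (hub (F.side w)) ≠ lam j (g w') (hub (F.side w'))
  elp : ∀ j w e a, a < t → lam j (g w) (hub (F.side w)) ≠ lam j (P e a) (P e (a + 1))
  epp : ∀ j e a e' a', a < t → a' < t → (e, a) ≠ (e', a') →
    lam j (P e a) (P e (a + 1)) ≠ lam j (P e' a') (P e' (a' + 1))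

/-- complete bipartite graph with `q + q` vertices -/
def KB (q : ℕ) : BG where
  W := Fin q ⊕ Fin q
  E := Fin q × Fin q
  side := Sum.elim (fun _ => true) (fun _ => false)
  a e := .inl e.1
  b e := .inr e.2

/-- star with `p` leaves -/
def Star (p : ℕ) : BG where
  W := Unit ⊕ Fin p
  E := Fin p
  side := Sum.elim (fun _ => true) (fun _ => false)
  a _ := .inl ()
  b e := .inr e

/-- `F` is a subgraph of `F'`, with the same sides -/
structure BEmb (F F' : BG) where
  w : F.W → F'.W
  e : F.E → F'.E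
  wi : Function.Injective w
  ei : Function.Injective e
  hs : ∀ x, F'.side (w x) = F.side x
  ha : ∀ x, F'.a (e x) = w (F.a x)
  hb : ∀ x, F'.b (e x) = w (F.b x)

/-! ### Rooted bipartite graphs -/

/-- rooted bipartite graph: roots `R`, inner vertices `I`, edges `E` -/
structure TR where
  R : Type
  I : Type
  E : Type
  [fR : Fintype R]
  [fI : Fintype I]
  [fE : Fintype E]
  side : R ⊕ I → Bool
  a : E → R ⊕ I
  b : E → R ⊕ I

attribute [instance] TR.fR TR.fI TR.fE

/-- the sides are as announced, an edge is given by its ends, no edge joins two roots -/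
structure TR.Ok (T : TR) : Prop where
  sa : ∀ e, T.side (T.a e) = true
  sb : ∀ e, T.side (T.b e) = false
  inj : ∀ e e', T.a e = T.a e' → T.b e = T.b e' → e = e'
  nr : ∀ e, (∃ x, T.a e = Sum.inr x) ∨ ∃ x, T.b e = Sum.inr x

/-- every set `S` of inner vertices meets at least `|S| |E| / |I|` edges -/
def TR.Bal (T : TR) : Prop := ∀ S : Finset T.I, Fintype.card T.E * S.card ≤
  Fintype.card T.I * (Finset.univ.filter fun e : T.E => ∃ x ∈ S, T.a e = .inr x ∨ T.b e = .inr x).card

/-- the vertices of the copy `q` in the power -/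
def TR.lift (T : TR) {p : ℕ} (q : Fin p) : T.R ⊕ T.I → T.R ⊕ (Fin p × T.I)
  | .inl x => .inl x
  | .inr y => .inr (q, y)

/-- the power: `p` copies glued along the roots -/
def TR.pB (T : TR) (p : ℕ) : BG where
  W := T.R ⊕ (Fin p × T.I)
  E := Fin p × T.E
  side := Sum.elim (fun x => T.side (.inl x)) (fun y => T.side (.inr y.2))
  a e := T.lift e.1 (T.a e.2)
  b e := T.lift e.1 (T.b e.2)

/-- old vertices as vertices of `L_t(T)` -/
def TR.old (T : TR) (t : ℕ) : T.R ⊕ T.I → (T.R ⊕ Bool) ⊕ (T.I ⊕ (T.E × Fin (t - 1)))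
  | .inl x => .inl (.inl x)
  | .inr y => .inr (.inl y)

/-- vertex at distance `i` from `a e` on the path which replaces `e` -/
def TR.pos (T : TR) (t : ℕ) (e : T.E) (i : ℕ) : (T.R ⊕ Bool) ⊕ (T.I ⊕ (T.E × Fin (t - 1))) :=
  if h : 1 ≤ i ∧ i < t then .inr (.inr (e, ⟨i - 1, by omega⟩))
  else if i = 0 then T.old t (T.a e) else T.old t (T.b e)

/-- the sides of `L_t(T)` -/
def TR.lside (T : TR) (t : ℕ) : (T.R ⊕ Bool) ⊕ (T.I ⊕ (T.E × Fin (t - 1))) → Bool
  | .inl (.inl x) => if T.side (.inl x) = true then true else decide (t % 2 = 0)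
  | .inl (.inr s) => if s = true then false else decide (t % 2 = 1)
  | .inr (.inl y) => if T.side (.inr y) = true then true else decide (t % 2 = 0)
  | .inr (.inr (_, i)) => decide ((i.1 + 1) % 2 = 0)

/-- the ends of the edges of `L_t(T)` -/
def TR.lends (T : TR) (t : ℕ) : (T.E × Fin t) ⊕ T.I →
    ((T.R ⊕ Bool) ⊕ (T.I ⊕ (T.E × Fin (t - 1)))) × ((T.R ⊕ Bool) ⊕ (T.I ⊕ (T.E × Fin (t - 1))))
  | .inl (e, i) => (T.pos t e i.1, T.pos t e (i.1 + 1))
  | .inr y => (.inr (.inl y), .inl (.inr (T.side (.inr y))))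

/-- `L_t(T)`: the new roots are the roots and two new vertices; only inner vertices are joined to
the new roots -/
def TR.L (T : TR) (t : ℕ) : TR where
  R := T.R ⊕ Bool
  I := T.I ⊕ (T.E × Fin (t - 1))
  E := (T.E × Fin t) ⊕ T.I
  side := T.lside t
  a x := if T.lside t (T.lends t x).1 = true then (T.lends t x).1 else (T.lends t x).2
  b x := if T.lside t (T.lends t x).1 = true then (T.lends t x).2 else (T.lends t x).1

/-- one edge, one end is the root -/
def T0 : TR where
  R := Unit
  I := Unit
  E := Unit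
  side := Sum.elim (fun _ => true) (fun _ => false)
  a _ := .inl ()
  b _ := .inr ()

/-! ### Walks -/

/-- conflict free closed walk -/
def CFr {V X Y ι κ : Type} (p : ι → V → X) (lam : κ → V → V → Y) {n : ℕ} (z : ZMod n → V) : Prop :=
  (∀ i a b, a ≠ b → p i (z a) ≠ p i (z b)) ∧
    ∀ j a b, a ≠ b → lam j (z a) (z (a + 1)) ≠ lam j (z b) (z (b + 1))

/-- walk without repetition of labels -/
def SF {V X Y ι κ : Type} (p : ι → V → X) (lam : κ → V → V → Y) {l : ℕ} (z : Fin (l + 1) → V) :
    Prop :=
  (∀ i a b, a ≠ b → p i (z a) ≠ p i (z b)) ∧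
    ∀ j (a b : Fin l), a ≠ b → lam j (z a.castSucc) (z a.succ) ≠ lam j (z b.castSucc) (z b.succ)

/-- the walks `P`, `P'` have the same label at the same place (not at the ends) -/
def Cf {V X Y ι κ : Type} (p : ι → V → X) (lam : κ → V → V → Y) {l : ℕ} (P P' : Fin (l + 1) → V) :
    Prop :=
  (∃ i, ∃ a : Fin (l + 1), a ≠ 0 ∧ a ≠ Fin.last l ∧ p i (P a) = p i (P' a)) ∨
    ∃ j, ∃ a : Fin l, lam j (P a.castSucc) (P a.succ) = lam j (P' a.castSucc) (P' a.succ)

/-- number of the walks `P'` with the ends of `P` and `Cf P P'` -/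
def Pn {V X Y ι κ : Type} [Fintype V] (A : V → V → Prop) (p : ι → V → X) (lam : κ → V → V → Y)
    {l : ℕ} (P : Fin (l + 1) → V) : ℕ :=
  ((Finset.univ : Finset (Fin (l + 1) → V)).filter fun P' =>
    Wk A l P' ∧ P' 0 = P 0 ∧ P' (Fin.last l) = P (Fin.last l) ∧ Cf p lam P P').card

/-- first part of a walk -/
def fr {V : Type} {l : ℕ} (z : Fin (l + 2) → V) : Fin (l + 1) → V := fun i => z i.castSucc

/-- last part of a walk -/
def bk {V : Type} {l : ℕ} (z : Fin (l + 2) → V) : Fin (l + 1) → V := fun i => z i.succ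

/-- good walk: no repetition of labels, at most `C` walks in conflict with its first part and with
its last part -/
def Gw {V X Y ι κ : Type} [Fintype V] (A : V → V → Prop) (p : ι → V → X) (lam : κ → V → V → Y)
    (C : ℕ) {l : ℕ} (z : Fin (l + 2) → V) : Prop :=
  Wk A (l + 1) z ∧ SF p lam z ∧ Pn A p lam (fr z) ≤ C ∧ Pn A p lam (bk z) ≤ C

/-- `(u, v)` is rich for walks with `k + 1` steps: at most the part `η` of the closed walks through
`u`, `v` is not in `G` -/
def Rich {V : Type} [Fintype V] (A : V → V → Prop) (k : ℕ) (G : (ZMod (2 * k + 2) → V) → Prop)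
    (η : ℝ) (u v : V) : Prop :=
  0 < (am A ^ (k + 1)) u v ∧
    (((Finset.univ : Finset (ZMod (2 * k + 2) → V)).filter fun z =>
      CWk A k z ∧ z 0 = u ∧ z ((k + 1 : ℕ) : ZMod (2 * k + 2)) = v ∧ ¬ G z).card : ℝ) ≤
        η * ((am A ^ (k + 1)) u v) ^ 2

end

end Pool.Agent.RXF
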