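import Pool.Agent.helper37.F2.Defs

/-!
# MP_26dbae_co: every rational in (1,2) is an exponent of `f_2(n, H)`: statements of the modules

`N` is the number of vertices of a host, `D` the sum of the degrees, `d = D / N`, `Δ` a bound for the
degrees, `h_j = hh A j = Σ ((A^j) x y)^2 = tr A^(2j)`. Any statement of this file, of
`Pool/Agent/helper23/TH/Spec.lean` or of `Pool/Agent/helper90/KS/Spec.lean` may be used as a hypothesis
of a module (no circles).
-/

set_option autoImplicit false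

open scoped BigOperators

namespace Pool.Agent.RXF

open Pool.Agent.helper23.TH Pool.Agent.KS

noncomputable section

open Classical

/-! ## A. Log-convexity and closed walks -/

/-- `Σ_w tr (Q_w M^x Q_w M^y)` -/
def Th {V W : Type} [Fintype V] [Fintype W] (M : Matrix V V ℝ) (Q : W → Matrix V V ℝ) (x y : ℕ) :
    ℝ := ∑ w, (Q w * M ^ x * Q w * M ^ y).trace

/-- LC. With `<S, T> = tr (Sᵀ T)`: `Th (a+c) (b+d) = Σ_w <M^a Q_w M^b, M^c Q_w M^d>` and
`Th (2a) (2b) = Σ_w |M^a Q_w M^b|^2 ≥ 0`, so by Cauchy-Schwarz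
`Th (a+c) (b+d) ^ 2 ≤ Th (2a) (2b) * Th (2c) (2d)`. Also `Th x y = Th y x` (cyclic trace). Let
`θ e = Th (2e) (2T-2e)`, `0 ≤ e ≤ T`: nonnegative, `θ e = θ (T-e)`, `θ e ^ 2 ≤ θ (e-1) θ (e+1)` for
`1 ≤ e < T`. So `θ e ≤ θ 0` for all `e`, and `θ e ≤ θ 1` for `1 ≤ e ≤ T-1` (take the smallest `e`
where the maximum `M` over the range is attained; `e ≤ T/2` by symmetry; if `e` is not the first
element of the range then `M^2 ≤ θ (e-1) θ (e+1) < M^2`). For odd `s = 2e+1`: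
`Th s (2T-s) ^ 2 ≤ θ e θ (e+1)`. -/
def LC_stmt : Prop := ∀ (V W : Type) [Fintype V] [Fintype W] (M : Matrix V V ℝ)
  (Q : W → Matrix V V ℝ), M.transpose = M → (∀ w, (Q w).transpose = Q w) →
  (∀ T s : ℕ, 2 ≤ s → s + 2 ≤ 2 * T → Th M Q s (2 * T - s) ≤ Th M Q 2 (2 * T - 2)) ∧
  ∀ T s : ℕ, s ≤ 2 * T → Th M Q s (2 * T - s) ≤ Th M Q 0 (2 * T)

/-- pairs of vertices with the same label -/
def VT {V X : Type} [Fintype V] (A : V → V → Prop) (f : V → X) (a b : ℕ) : ℝ :=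
  ∑ x, ∑ y, if f x = f y then (am A ^ a) x y * (am A ^ b) x y else 0

/-- pairs of edges with the same label -/
def ET {V Y : Type} [Fintype V] (A : V → V → Prop) (f : V → V → Y) (a b : ℕ) : ℝ :=
  ∑ x, ∑ y, ∑ x', ∑ y', if A x y ∧ A x' y' ∧ f x y = f x' y' then
    (am A ^ a) x x' * (am A ^ b) y y' else 0

/-- VB (from LC). `VT a b = Th (am A) Q a b` for the diagonal 0/1 matrices `Q_l = (f x = l)`, `l` in
the image of `f` (`W` = the subtype of the image; the powers of `A` are symmetric). So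
`VT s (2T-s) ≤ VT 2 (2T-2)`. `(A^2) x y` is the number of common neighbours of `x`, `y`: if `f x = f y`
it is `0` for `x ≠ y` and `dg x` for `x = y`. So `VT 2 (2T-2) ≤ Σ_x Δ (A^(2T-2)) x x = Δ h_(T-1)`. -/
def VB_stmt : Prop := ∀ (V X : Type) [Fintype V] (A : V → V → Prop) (f : V → X) (Δ : ℕ),
  (∀ u v, A u v → A v u) → (∀ v w w', A v w → A v w' → f w = f w' → w = w') →
  (∀ v, dg A Finset.univ v ≤ Δ) → ∀ T s : ℕ, 2 ≤ s → s + 2 ≤ 2 * T →
    VT A f s (2 * T - s) ≤ Δ * hh A (T - 1)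

/-- EB (from LC). `ET a b = Th (am A) Q b a` for the symmetric matrices
`Q_l x y = 1 if A x y and f x y = l, else 0`, `l` in the image of `f`:
`tr (Q A^b Q A^a) = Σ Q x y (A^b) y y' Q y' x' (A^a) x' x`. So `ET s (2T-s) ≤ Th 0 (2T) = ET 0 (2T)`
(or `ET (2T) 0`), `(A^0) x x' = 1` for `x = x'`, else `0`, and `A x y`, `A x y'`, `f x y = f x y'` only
for `y = y'`. So it is `Σ_x Σ_(y ~ x) (A^(2T)) y y ≤ Δ Σ_y (A^(2T)) y y = Δ h_T`. -/
def EB_stmt : Prop := ∀ (V Y : Type) [Fintype V] (A : V → V → Prop) (f : V → V → Y) (Δ : ℕ),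
  (∀ u v, A u v → A v u) → (∀ u v, f u v = f v u) →
  (∀ v w w', A v w → A v w' → f v w = f v w' → w = w') →
  (∀ v, dg A Finset.univ v ≤ Δ) → ∀ T s : ℕ, s ≤ 2 * T →
    ET A f s (2 * T - s) ≤ Δ * hh A T

/-- CWV. Closed walks with `z i = x`, `z j = y`: a walk from `x` to `y` with `s = (j - i).val` steps and
a walk from `y` to `x` with `2k+2-s` steps (rotate so that `i = 0`). Sum over `x`, `y` with
`f x = f y`. -/
def CWV_stmt : Prop := ∀ (V X : Type) [Fintype V] (A : V → V → Prop) (f : V → X),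
  (∀ u v, A u v → A v u) → ∀ (k : ℕ) (i j : ZMod (2 * k + 2)), i ≠ j →
    (((Finset.univ : Finset (ZMod (2 * k + 2) → V)).filter
      (fun z => CWk A k z ∧ f (z i) = f (z j))).card : ℝ) =
        VT A f (j - i).val (2 * k + 2 - (j - i).val)

/-- CWE. Closed walks with `z i = x`, `z (i+1) = y`, `z (j+1) = x'`, `z j = y'`: the edges `x y`, `x' y'`,
a walk from `y` to `y'` with `s - 1` steps, `s = (j - i).val ≥ 1`, and a walk from `x'` to `x` with
`2k+1-s` steps. -/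
def CWE_stmt : Prop := ∀ (V Y : Type) [Fintype V] (A : V → V → Prop) (f : V → V → Y),
  (∀ u v, A u v → A v u) → (∀ u v, f u v = f v u) → ∀ (k : ℕ) (i j : ZMod (2 * k + 2)), i ≠ j →
    (((Finset.univ : Finset (ZMod (2 * k + 2) → V)).filter
      (fun z => CWk A k z ∧ f (z i) (z (i + 1)) = f (z j) (z (j + 1)))).card : ℝ) =
        ET A f (2 * k + 1 - (j - i).val) ((j - i).val - 1)

/-- CFB (from VB, EB, CWV, CWE). Vertices: if `s = (j - i).val` is `1` or `2k+1` then `z i`, `z j` are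
adjacent and there is no such walk; otherwise VB with `T = k+1`. Edges: EB with `T = k`. -/
def CFB_stmt : Prop := ∀ (V X Y ι κ : Type) [Fintype V] (A : V → V → Prop) (p : ι → V → X)
  (lam : κ → V → V → Y) (Δ : ℕ), Host A p lam → (∀ v, dg A Finset.univ v ≤ Δ) →
  ∀ (k : ℕ) (i j : ZMod (2 * k + 2)), i ≠ j →
    (∀ x, (((Finset.univ : Finset (ZMod (2 * k + 2) → V)).filter
      (fun z => CWk A k z ∧ p x (z i) = p x (z j))).card : ℝ) ≤ Δ * hh A k) ∧
    ∀ y, (((Finset.univ : Finset (ZMod (2 * k + 2) → V)).filter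
      (fun z => CWk A k z ∧ lam y (z i) (z (i + 1)) = lam y (z j) (z (j + 1)))).card : ℝ) ≤
        Δ * hh A k

/-! ## B. Heavy case -/

/-- HB (from CFB). Union bound over the label and the two places. -/
def HB_stmt : Prop := ∀ (V X Y ι κ : Type) [Fintype V] [Fintype ι] [Fintype κ] (A : V → V → Prop)
  (p : ι → V → X) (lam : κ → V → V → Y) (Δ : ℕ), Host A p lam →
  (∀ v, dg A Finset.univ v ≤ Δ) → ∀ k : ℕ,
    (((Finset.univ : Finset (ZMod (2 * k + 2) → V)).filter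
      (fun z => CWk A k z ∧ ¬ CFr p lam z)).card : ℝ) ≤
        ((Fintype.card ι : ℝ) + Fintype.card κ) * (2 * k + 2) ^ 2 * (Δ * hh A k)

/-- WCC (from `WC_stmt`, `GLU_stmt`). Number of closed walks through given vertices. (2) is (1) after
a rotation by one step. (3): `u m` and `v m'` are edges, walks with `k` steps from `m` to `v` and from `m'`
to `u`. -/
def WCC_stmt : Prop := ∀ (V : Type) [Fintype V] (A : V → V → Prop), (∀ u v, A u v → A v u) →
  ∀ k : ℕ,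
  ((((Finset.univ : Finset (ZMod (2 * k + 2) → V)).filter (fun z => CWk A k z)).card : ℝ) =
    hh A (k + 1)) ∧
  (∀ u v, (((Finset.univ : Finset (ZMod (2 * k + 2) → V)).filter (fun z => CWk A k z ∧ z 0 = u ∧
    z ((k + 1 : ℕ) : ZMod (2 * k + 2)) = v)).card : ℝ) = ((am A ^ (k + 1)) u v) ^ 2) ∧
  (∀ m m', (((Finset.univ : Finset (ZMod (2 * k + 2) → V)).filter (fun z => CWk A k z ∧ z 1 = m ∧
    z ((k + 2 : ℕ) : ZMod (2 * k + 2)) = m')).card : ℝ) = ((am A ^ (k + 1)) m m') ^ 2) ∧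
  (1 ≤ k → ∀ u m v m', (((Finset.univ : Finset (ZMod (2 * k + 2) → V)).filter (fun z =>
    CWk A k z ∧ z 0 = u ∧ z 1 = m ∧ z ((k + 1 : ℕ) : ZMod (2 * k + 2)) = v ∧
    z ((k + 2 : ℕ) : ZMod (2 * k + 2)) = m')).card : ℝ) =
      ((am A) u m * (am A ^ k) m' u) * ((am A) v m' * (am A ^ k) m v))

/-- KQ. `δ = (3/4)^(q^2) / (q^2 + 1)`. Sum over all tuples `(u_1..u_q)`, `(v_1..v_q)` of
`Π β(u_i) Π α(v_j) Π_(i,j) [Rel u_i v_j]`: by Jensen (`inner_le_nnorm_mul_nnorm`,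
`Real.inner_le_Lp_mul_Lq` or `Real.pow_arith_mean_le_arith_mean_pow`) twice it is at least
`(3/4)^(q^2) W^(2q)`: first `Σ_v α(v) (Σ_u β(u) [Rel u v])^q ≥ W (3/4 W)^q`; the left side is
`Σ_(u_1..u_q) Π β(u_i) F(u_1..u_q)`, `F = Σ_v α(v) Π_i [Rel u_i v]`, and the whole sum is
`Σ Π β(u_i) F^q ≥ W^q ((3/4)^q W)^q`. The tuples with `u_i = u_i'` for given `i ≠ i'` contribute at
most `δ W^(2q)`, the same for `v`; less than `q^2 δ W^(2q)` together. So there are tuples with positive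
weight which are injective. -/
def KQ_stmt : Prop := ∀ q : ℕ, ∃ δ : ℝ, 0 < δ ∧ ∀ (V : Type) [Fintype V] (α β : V → ℝ) (W : ℝ)
  (Rel : V → V → Prop), 0 < W → (∀ v, 0 ≤ α v) → (∀ v, 0 ≤ β v) → ∑ v, α v = W → ∑ v, β v = W →
  (∀ v, α v ≤ δ * W) → (∀ v, β v ≤ δ * W) →
  3 / 4 * W ^ 2 ≤ ∑ u, ∑ v, (if Rel u v then β u * α v else 0) →
  ∃ u v : Fin q → V, Function.Injective u ∧ Function.Injective v ∧ ∀ i j, Rel (u i) (v j)

/-- HU1 (from WCC). Let `t = k+1`, `w = (A^t) u v`, `W = (A^t) m m'`; `ε = η / (16 (1 + η))`,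
`X₀ = 8 / δ^2`. The closed walks `z` with `¬ Rich (z 0) (z t)` are at most `(ε / η) h_t`: for such a pair
with `w > 0` more than `η w^2` of its `w^2` closed walks are not in `G` (WCC (1)). Let `T(m,m')` be the
number of the closed walks in `G` with `z 1 = m`, `z (t+1) = m'`, `Rich (z 0) (z t)`:
`Σ (W^2 - T) ≤ (ε + ε/η) h_t` (WCC (2)), so the pairs `(m,m')` with `T < 3/4 W^2` have
`Σ W^2 ≤ 4 (ε + ε/η) h_t = h_t / 4`. Let `β u = A u m * (A^k) m' u`, `α v = A v m' * (A^k) m v`: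
`Σ_(m,m') Σ_v α(v)^2 = Σ_(m,v) ((A^k) m v)^2 dg v ≤ Δ h_k`, the same for `β`. So the pairs with
`α v > δ W` or `β u > δ W` for some `v` or `u` have `Σ W^2 ≤ 2 δ^(-2) Δ h_k ≤ h_t / 4`. As
`Σ W^2 = h_t > 0` there is `(m,m')` with `W > 0`, `T ≥ 3/4 W^2` and no large atom. -/
def HU1_stmt : Prop := ∀ (k : ℕ) (η δ : ℝ), 1 ≤ k → 0 < η → 0 < δ → ∃ ε X₀ : ℝ, 0 < ε ∧ 0 < X₀ ∧
  ∀ (V : Type) [Fintype V] (A : V → V → Prop) (Δ : ℕ) (G : (ZMod (2 * k + 2) → V) → Prop),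
  (∀ u v, A u v → A v u) → (∀ v, dg A Finset.univ v ≤ Δ) → 0 < hh A (k + 1) →
  X₀ * (Δ * hh A k) ≤ hh A (k + 1) →
  (((Finset.univ : Finset (ZMod (2 * k + 2) → V)).filter (fun z => CWk A k z ∧ ¬ G z)).card : ℝ) ≤
    ε * hh A (k + 1) →
  ∃ (m m' : V), 0 < (am A ^ (k + 1)) m m' ∧
    (∀ u, (am A) u m * (am A ^ k) m' u ≤ δ * (am A ^ (k + 1)) m m') ∧
    (∀ v, (am A) v m' * (am A ^ k) m v ≤ δ * (am A ^ (k + 1)) m m') ∧
    3 / 4 * ((am A ^ (k + 1)) m m') ^ 2 ≤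
      (((Finset.univ : Finset (ZMod (2 * k + 2) → V)).filter (fun z => CWk A k z ∧ G z ∧ z 1 = m ∧
        z ((k + 2 : ℕ) : ZMod (2 * k + 2)) = m' ∧
        Rich A k G η (z 0) (z ((k + 1 : ℕ) : ZMod (2 * k + 2))))).card : ℝ)

/-- HU (from HU1, WCC, KQ). `δ` from KQ, `W = (A^(k+1)) m m'`, `β u = A u m * (A^k) m' u`,
`α v = A v m' * (A^k) m v`: both have sum `W` (symmetry of `A`). KQ for
`Rel u v = (∃ z in G closed with z 0 = u, z 1 = m, z (k+1) = v, z (k+2) = m', and Rich u v)`: by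
WCC (3) the number of walks in HU1 is at most `Σ [Rel u v] β u α v`. -/
def HU_stmt : Prop := ∀ (q k : ℕ) (η : ℝ), 1 ≤ k → 0 < η → ∃ ε X₀ : ℝ, 0 < ε ∧ 0 < X₀ ∧
  ∀ (V : Type) [Fintype V] (A : V → V → Prop) (Δ : ℕ) (G : (ZMod (2 * k + 2) → V) → Prop),
  (∀ u v, A u v → A v u) → (∀ v, dg A Finset.univ v ≤ Δ) → 0 < hh A (k + 1) →
  X₀ * (Δ * hh A k) ≤ hh A (k + 1) →
  (((Finset.univ : Finset (ZMod (2 * k + 2) → V)).filter (fun z => CWk A k z ∧ ¬ G z)).card : ℝ) ≤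
    ε * hh A (k + 1) →
  ∃ (m m' : V) (u v : Fin q → V), Function.Injective u ∧ Function.Injective v ∧
    ∀ i j, Rich A k G η (u i) (v j) ∧ ∃ z, CWk A k z ∧ G z ∧ z 0 = u i ∧ z 1 = m ∧
      z ((k + 1 : ℕ) : ZMod (2 * k + 2)) = v j ∧ z ((k + 2 : ℕ) : ZMod (2 * k + 2)) = m'

/-- HQ (from `WC_stmt`, `GLU_stmt`). There are `w^Q` families `P` of `Q` walks from `u` to `v`,
`w = (A^(k+1)) u v > 0` (an integer); for given `s ≠ s'` at most `η w^2 w^(Q-2)` of them have a pair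
`(P s, P s')` whose closed walk (GLU) is not in `G`; `Q^2 η < 1`. -/
def HQ_stmt : Prop := ∀ (Q k : ℕ) (η : ℝ), 0 < η → (Q : ℝ) ^ 2 * η < 1 →
  ∀ (V : Type) [Fintype V] (A : V → V → Prop) (G : (ZMod (2 * k + 2) → V) → Prop),
  (∀ u v, A u v → A v u) → ∀ u v : V, Rich A k G η u v →
  ∃ P : Fin Q → Fin (k + 2) → V,
    (∀ s, Wk A (k + 1) (P s) ∧ P s 0 = u ∧ P s (Fin.last (k + 1)) = v) ∧
    ∀ s s', s ≠ s' → ∃ z, CWk A k z ∧ G z ∧
      (∀ i : Fin (k + 2), z ((i : ℕ) : ZMod (2 * k + 2)) = P s i) ∧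
      ∀ i : Fin (k + 2), z (-((i : ℕ) : ZMod (2 * k + 2))) = P s' i

/-- HA (from `GR_stmt`). Assembly. `Q` walks `P i j s` from `u i` to `v j`, pairwise in a conflict free
closed walk. Fact 1: for a label `x` of `p a` at most one `s` has an inner vertex `P i j s b`,
`1 ≤ b ≤ k`, with this label; for a label `y` of `lam a` at most one `s` has an edge with this label (for
`s ≠ s'` look at the closed walk `z`: `P s b = z b`, `P s' b' = z (-b')`, and `b ≠ -b'` in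
`ZMod (2k+2)`; the edges are `z b, z (b+1)` and `z (-b'-1), z (-b')`, and `b ≠ -b'-1`). Fact 2: a single
walk `P i j s` has no repetition of labels (`Q ≥ 2`). Let `Y (i,j)` be the walks `P i j s` whose inner
vertices have labels different from those of `m`, `m'`, all `u`, all `v` and whose edges have labels
different from those of all edges `u i' m`, `v j' m'`: at least
`Q - |ι| (2 + 2q) - |κ| 2q` of them. GR with `r P P'` = two inner vertices with the same label or two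
edges with the same label, `E = |ι| k + |κ| (k+1)`. Take `g (inl i) = u i`, `g (inr j) = v j`,
`hub true = m`, `hub false = m'`, `P (i,j) b` the vertices of the chosen walk (`b ≤ k+1`). `vgg`: `u i`, `u i'`
are different neighbours of `m` (`Host.inj`); `u i`, `v j`, `m`, `m'` lie on a conflict free closed walk at
the places `0`, `k+1`, `1`, `k+2` (different, as `k ≥ 1`); `ell`: `Host.linj`, or the edges `z 0 z 1` and
`z (k+1) z (k+2)` of a conflict free closed walk. -/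
def HA_stmt : Prop := ∀ (ι κ : Type) [Fintype ι] [Fintype κ] [Nonempty ι] (q k : ℕ), 1 ≤ q →
  1 ≤ k → ∃ Q : ℕ, 2 ≤ Q ∧ ∀ (V X Y : Type) [Fintype V] (A : V → V → Prop) (p : ι → V → X)
  (lam : κ → V → V → Y), Host A p lam → ∀ (m m' : V) (u v : Fin q → V), Function.Injective u →
  Function.Injective v →
  (∀ i j, ∃ z, CWk A k z ∧ CFr p lam z ∧ z 0 = u i ∧ z 1 = m ∧
    z ((k + 1 : ℕ) : ZMod (2 * k + 2)) = v j ∧ z ((k + 2 : ℕ) : ZMod (2 * k + 2)) = m') →
  (∀ i j, ∃ P : Fin Q → Fin (k + 2) → V,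
    (∀ s, Wk A (k + 1) (P s) ∧ P s 0 = u i ∧ P s (Fin.last (k + 1)) = v j) ∧
    ∀ s s', s ≠ s' → ∃ z, CWk A k z ∧ CFr p lam z ∧
      (∀ a : Fin (k + 2), z ((a : ℕ) : ZMod (2 * k + 2)) = P s a) ∧
      ∀ a : Fin (k + 2), z (-((a : ℕ) : ZMod (2 * k + 2))) = P s' a) →
  ∃ (g : (KB q).W → V) (hub : Bool → V) (P : (KB q).E → ℕ → V),
    LCopy (KB q) (k + 1) A p lam g hub P

/-- HV (from HB, HU, HQ, HA). `Q` from HA, `η = 1 / (2 Q^2)`, `G = CFr p lam`, `ε`, `X₀` from HU (for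
this `η`), the constant here is `max(X₀, B / ε)`, `B = (|ι| + |κ|) (2k+2)^2`. -/
def HV_stmt : Prop := ∀ (ι κ : Type) [Fintype ι] [Fintype κ] [Nonempty ι] (q k : ℕ), 1 ≤ q →
  1 ≤ k → ∃ X₁ : ℝ, 1 ≤ X₁ ∧ ∀ (V X Y : Type) [Fintype V] (A : V → V → Prop) (p : ι → V → X)
  (lam : κ → V → V → Y) (Δ : ℕ), Host A p lam → (∀ v, dg A Finset.univ v ≤ Δ) →
  0 < hh A (k + 1) → X₁ * Δ * hh A k ≤ hh A (k + 1) →
  ∃ (g : (KB q).W → V) (hub : Bool → V) (P : (KB q).E → ℕ → V),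
    LCopy (KB q) (k + 1) A p lam g hub P

/-! ## C. Light case -/

/-- WL. Number of walks with `l` steps. `s_j = Σ_a (Σ_b (A^j) a b)^2` is the number of walks with `2j`
steps, `s_j^2 ≤ s_(j-1) s_(j+1)`, `s_0 = N`, `s_1 ≥ N d^2`, so `s_j ≥ N d^(2j)` (as in `WI_stmt`). `l` even:
`#Wk ≥ N d^l` and `d ≤ Δ`. `l` odd: the walks with `l + 1` steps are at least `N d^(l+1)` and at most
`Δ #Wk`. -/
def WL_stmt : Prop := ∀ (V : Type) [Fintype V] (A : V → V → Prop) (Δ l : ℕ),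
  (∀ u v, A u v → A v u) → (∀ v, dg A Finset.univ v ≤ Δ) → 0 < Fintype.card V →
  (Fintype.card V : ℝ) * ((∑ v, (dg A Finset.univ v : ℝ)) / Fintype.card V) ^ (l + 1) ≤
    Δ * ((Finset.univ : Finset (Fin (l + 1) → V)).filter (fun z => Wk A l z)).card

/-- HL. `h_j^2 ≤ h_(j-1) h_(j+1)` (Cauchy-Schwarz), so `h_j ≤ Z h_(j-1)` for all `1 ≤ j ≤ t`
(downward induction: if `h_j = 0` then `A^j = 0`, so `h_i = 0` for `i ≥ j`; the case `h_t = 0` is
trivial), and `h_0 = N`. -/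
def HL_stmt : Prop := ∀ (V : Type) [Fintype V] (A : V → V → Prop) (t : ℕ) (Z : ℝ),
  (∀ u v, A u v → A v u) → 1 ≤ t → 0 ≤ Z → hh A t ≤ Z * hh A (t - 1) →
  hh A t ≤ Fintype.card V * Z ^ t

/-- PR (from CFB, `GLU_stmt`). Pairs of walks with `k + 1` steps and the same ends are closed walks `z`,
`P i = z i`, `P' i = z (-i)`. The same vertex label at the place `a`, `1 ≤ a ≤ k`: `p (z a) = p (z (-a))` and
`a ≠ -a`; the same edge label at the place `a`, `0 ≤ a ≤ k`: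
`lam (z a) (z (a+1)) = lam (z (-a-1)) (z (-a-1+1))` and `a ≠ -a-1`. -/
def PR_stmt : Prop := ∀ (V X Y ι κ : Type) [Fintype V] [Fintype ι] [Fintype κ] (A : V → V → Prop)
  (p : ι → V → X) (lam : κ → V → V → Y) (Δ : ℕ), Host A p lam →
  (∀ v, dg A Finset.univ v ≤ Δ) → ∀ k : ℕ,
    ((∑ P ∈ (Finset.univ : Finset (Fin (k + 2) → V)).filter (fun P => Wk A (k + 1) P),
      Pn A p lam P : ℕ) : ℝ) ≤
        ((Fintype.card ι : ℝ) + Fintype.card κ) * (k + 1) * (Δ * hh A k)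

/-- SW. Walks with a repetition of labels. For given label and places `a < b` the vertex `z b` (the
vertex `z (b+1)` for edges) is determined by the vertices before it (`Host.inj`, `Host.linj`). -/
def SW_stmt : Prop := ∀ (V X Y ι κ : Type) [Fintype V] [Fintype ι] [Fintype κ] (A : V → V → Prop)
  (p : ι → V → X) (lam : κ → V → V → Y) (Δ : ℕ), Host A p lam →
  (∀ v, dg A Finset.univ v ≤ Δ) → ∀ l : ℕ,
    ((Finset.univ : Finset (Fin (l + 2) → V)).filter
      (fun z => Wk A (l + 1) z ∧ ¬ SF p lam z)).card ≤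
        (Fintype.card ι + Fintype.card κ) * (l + 2) ^ 2 * (Fintype.card V * Δ ^ l)

/-- LA (from WL, PR, SW). `B = (|ι| + |κ|) (t+1)`. There are at least `N d^(t+3) / Δ ≥ N d^(t+2) / k₀` walks
with `t + 2` steps. At most `(|ι| + |κ|) (t+3)^2 N Δ^(t+1)` have a repetition (SW). The walks `P` with
`t + 1` steps and `Pn P > C` are at most `B Δ h_t / C` (PR), each is `fr z` (`bk z`) for at most `Δ` walks
`z`: at most `B Δ^2 h_t / C ≤ B Y₀^t N Δ^(t+2) / C`. As `Δ ≤ k₀ d`: `C ≥ 8 B Y₀^t k₀^(t+3)`,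
`D₀ = 4 (|ι| + |κ|) (t+3)^2 k₀^(t+2) + 1`, `c₁ = 1 / (4 k₀)` will do. -/
def LA_stmt : Prop := ∀ (ι κ : Type) [Fintype ι] [Fintype κ] (t : ℕ) (k₀ Y₀ : ℝ), 1 ≤ t →
  0 < k₀ → 0 < Y₀ → ∃ (C : ℕ) (c₁ D₀ : ℝ), 0 < c₁ ∧ 0 < D₀ ∧
  ∀ (V X Y : Type) [Fintype V] (A : V → V → Prop) (p : ι → V → X) (lam : κ → V → V → Y) (Δ : ℕ)
    (d : ℝ), Host A p lam → 0 < Fintype.card V → (∀ v, dg A Finset.univ v ≤ Δ) →
  ∑ v, (dg A Finset.univ v : ℝ) = d * Fintype.card V → (Δ : ℝ) ≤ k₀ * d → D₀ ≤ d →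
  hh A t ≤ Fintype.card V * (Y₀ * Δ) ^ t →
  c₁ * (Fintype.card V * d ^ (t + 2)) ≤
    ((Finset.univ : Finset (Fin (t + 3) → V)).filter (fun z => Gw A p lam C (l := t + 1) z)).card

/-- RO. Roles. One label `i` after the other: choose `ρ i` at random among the functions from the
finite set of all values `f i s a`, `s ∈ G`, to `{0, .., n-1}`: as `f i s` is injective the probability of
`ρ i (f i s a) = a` for all `a` is `n^(-n)`. -/
def RO_stmt : Prop := ∀ (κ S Z : Type) [Fintype κ] (n : ℕ) (G : Finset S)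
  (f : κ → S → Fin n → Z), (∀ i, ∀ s ∈ G, Function.Injective (f i s)) →
  ∃ ρ : κ → Z → ℕ, G.card ≤
    (n ^ n) ^ Fintype.card κ * (G.filter fun s => ∀ i a, ρ i (f i s a) = (a : ℕ)).card

/-- IN. Independent subset (induction on `G`: take an element, remove it and its conflict partners). -/
def IN_stmt : Prop := ∀ (S : Type) (G : Finset S) (r : S → S → Prop) (D : ℕ),
  (∀ x y, r x y → r y x) → (∀ s ∈ G, (G.filter fun s' => r s s').card ≤ D) →
  ∃ G₁ ⊆ G, (∀ s ∈ G₁, ∀ s' ∈ G₁, s ≠ s' → ¬ r s s') ∧ G.card ≤ (D + 1) * G₁.card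

/-- selection of walks `P j` with `t + 2` steps from `m` to `m'`: `ρ`, `σ` are the roles of the labels of
vertices and edges; walks with the same first or the same last inner vertex have no conflict -/
structure LSel {V X Y ι κ : Type} (t : ℕ) (A : V → V → Prop) (p : ι → V → X)
    (lam : κ → V → V → Y) (m m' : V) (ρ : ι → X → ℕ) (σ : κ → Y → ℕ) {n : ℕ}
    (P : Fin n → ℕ → V) : Prop where
  st : ∀ j, P j 0 = m
  en : ∀ j, P j (t + 2) = m'
  wk : ∀ j a, a < t + 2 → A (P j a) (P j (a + 1))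
  ro : ∀ i j a, a ≤ t + 2 → ρ i (p i (P j a)) = a
  so : ∀ i j a, a < t + 2 → σ i (lam i (P j a) (P j (a + 1))) = a
  dj : ∀ j j', P j 1 = P j' 1 → P j (t + 1) = P j' (t + 1) → j = j'
  vd : ∀ j j', j ≠ j' → P j 1 = P j' 1 ∨ P j (t + 1) = P j' (t + 1) →
    ∀ i a, 2 ≤ a → a ≤ t → p i (P j a) ≠ p i (P j' a)
  ed : ∀ j j', j ≠ j' → P j 1 = P j' 1 ∨ P j (t + 1) = P j' (t + 1) →
    ∀ i a, 1 ≤ a → a ≤ t → lam i (P j a) (P j (a + 1)) ≠ lam i (P j' a) (P j' (a + 1))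

/-- LZ (from RO, IN). RO twice (vertex labels: `n = t + 3`; edge labels: `n = t + 2`; `SF` gives the
injectivity), then pigeonhole for `(z 0, z last)`: at least a fraction `c / N^2` of the good walks have the
same ends `m`, `m'` and all labels in their roles. Conflict `r z z'`: (`z 1 = z' 1` or
`z (t+1) = z' (t+1)`) and (`p i (z a) = p i (z' a)` for some `i` and `2 ≤ a ≤ t` or
`lam i (z a) (z (a+1)) = lam i (z' a) (z' (a+1))` for some `i` and `1 ≤ a ≤ t`, or both ends agree). For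
given `z` at most `2 C` walks `z'`: if `z (t+1) = z' (t+1)` then `fr z'` is counted in `Pn (fr z)` (if both
`z 1 = z' 1` and `z (t+1) = z' (t+1)` then `p i (z 1) = p i (z' 1)` is the conflict, `ι` is not empty), and
`z'` is determined by `fr z'` and `m'`; if `z 1 = z' 1` use `bk`. IN with `D = 2 C`. `P j a` is `z a` for
`a ≤ t + 2` and `m'` for larger `a`. -/
def LZ_stmt : Prop := ∀ (ι κ : Type) [Fintype ι] [Fintype κ] [Nonempty ι] (t C : ℕ), 1 ≤ t →
  ∃ c₂ : ℝ, 0 < c₂ ∧ ∀ (V X Y : Type) [Fintype V] (A : V → V → Prop) (p : ι → V → X)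
    (lam : κ → V → V → Y), Host A p lam → 0 < Fintype.card V →
  ∃ (m m' : V) (ρ : ι → X → ℕ) (σ : κ → Y → ℕ) (n : ℕ) (P : Fin n → ℕ → V),
    LSel t A p lam m m' ρ σ P ∧
    c₂ * ((Finset.univ : Finset (Fin (t + 3) → V)).filter
      (fun z => Gw A p lam C (l := t + 1) z)).card ≤ n * (Fintype.card V : ℝ) ^ 2

/-- the graph whose edges are the pairs (first inner vertex, last inner vertex) of the walks -/
def Bg {V : Type} (t : ℕ) {n : ℕ} (P : Fin n → ℕ → V) (x y : V) : Prop :=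
  ∃ j, s(P j 1, P j (t + 1)) = s(x, y)

/-- index of the walk which belongs to an edge -/
def cjS {V : Type} (t : ℕ) {n : ℕ} (P : Fin n → ℕ → V) (e : Sym2 V) : Option (Fin n) :=
  if h : ∃ j, s(P j 1, P j (t + 1)) = e then some h.choose else none

/-- the colours of the edges of `Bg`: labels of the inner vertices `2, .., t` and of the inner edges of
the walk -/
def lamB {V X Y ι κ : Type} (p : ι → V → X) (lam : κ → V → V → Y) (t : ℕ) {n : ℕ}
    (P : Fin n → ℕ → V) : (ι × Fin (t - 1)) ⊕ (κ × Fin t) → V → V → Option (X ⊕ Y)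
  | .inl (i, a), x, y => (cjS t P s(x, y)).map fun j => .inl (p i (P j (a.1 + 2)))
  | .inr (i, a), x, y => (cjS t P s(x, y)).map fun j =>
      .inr (lam i (P j (a.1 + 1)) (P j (a.1 + 2)))

/-- LG. `Bg` on the set `{x | A m x ∨ A m' x}` is a graph with proper colourings. `ne`: roles `1` and
`t + 1` are different. By the roles an edge `x y` of `Bg` with `x = P j 1` has `y = P j (t+1)`, and by `dj` the
`j` is unique, so `cjS` finds it. `linj`: two edges at `x` with the same colour: if they belong to different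
`j`, `j'` then `P j 1 = P j' 1` or `P j (t+1) = P j' (t+1)` (roles), contradiction to `vd`, `ed`. The `n` pairs
`(P j 1, P j (t+1))` are different edges. The set has at most `2 Δ` elements. (`symm`, `lsymm`:
`Sym2.eq_swap`.) -/
def LG_stmt : Prop := ∀ (V X Y ι κ : Type) [Fintype V] [Fintype ι] [Fintype κ] [Nonempty ι]
  (A : V → V → Prop) (p : ι → V → X) (lam : κ → V → V → Y) (t Δ : ℕ), 1 ≤ t → Host A p lam →
  (∀ v, dg A Finset.univ v ≤ Δ) → ∀ (m m' : V) (ρ : ι → X → ℕ) (σ : κ → Y → ℕ) (n : ℕ)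
  (P : Fin n → ℕ → V), LSel t A p lam m m' ρ σ P →
    Host (fun x y : {x // A m x ∨ A m' x} => Bg t P x.1 y.1)
      (fun (_ : Unit) (v : {x // A m x ∨ A m' x}) => v)
      (fun i (x y : {x // A m x ∨ A m' x}) => lamB p lam t P i x.1 y.1) ∧
    (n ≤ ∑ v, dg (fun x y : {x // A m x ∨ A m' x} => Bg t P x.1 y.1) Finset.univ v) ∧
    Fintype.card {x // A m x ∨ A m' x} ≤ 2 * Δ ∧
    (0 < n → 0 < Fintype.card {x // A m x ∨ A m' x})

/-- LD. Assembly of the light case. Let `g₀` be the copy of `F` in `Bg`. `s w = [ρ i (p i (g₀ w)) = 1]`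
(any `i`) is a 2-colouring of `F` (the ends of an edge of `Bg` have roles `1` and `t + 1`), so by `rigid` it is
`side` or `!side`; every `w` lies on an edge (`cov`), so `g₀ w` has role `1` or `t + 1` and is a neighbour of
`m` or `m'` accordingly. For `e` let `j e` be the walk of the edge `g₀ (a e) g₀ (b e)`. First case
(`s = side`): `hub true = m`, `hub false = m'`, `P' e i = P (j e) (i + 1)`; second case: `hub true = m'`,
`hub false = m`, `P' e i = P (j e) (t + 1 - i)` for `i ≤ t + 1`. `vgg`: different roles, or two different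
neighbours of `m` (of `m'`), `Host.inj`; `vhh`, `vgh`, `vgp`, `vhp`: roles; `vpp`: different places: roles; the
same place: `e ≠ e'`, the colour `inl (i, a)` is injective on the edges of the copy. `ell`: same side:
`Host.linj`; different sides: the edges `m x` and `y m'` are edges of walks at the places `0` and `t + 1`
(`cov`), roles; `elp`: roles; `epp`: roles or the colour `inr (i, a)`. -/
def LD_stmt : Prop := ∀ (F : BG) (V X Y ι κ : Type) [Fintype V] [Fintype ι] [Fintype κ]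
  [Nonempty ι] (A : V → V → Prop) (p : ι → V → X) (lam : κ → V → V → Y) (t : ℕ), F.Ok →
  1 ≤ t → Host A p lam → ∀ (m m' : V) (ρ : ι → X → ℕ) (σ : κ → Y → ℕ) (n : ℕ)
  (P : Fin n → ℕ → V), LSel t A p lam m m' ρ σ P →
    Copy F (fun x y : {x // A m x ∨ A m' x} => Bg t P x.1 y.1)
      (fun (_ : Unit) (v : {x // A m x ∨ A m' x}) => v)
      (fun i (x y : {x // A m x ∨ A m' x}) => lamB p lam t P i x.1 y.1) →
    ∃ (g : F.W → V) (hub : Bool → V) (P' : F.E → ℕ → V), LCopy F t A p lam g hub P'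

/-- LT (from LA, LZ, LG, LD). `C`, `c₁`, `D₀` from LA, `c₂` from LZ, `K_F` from `RC F a` for the colours
`(ι × Fin (t-1)) ⊕ (κ × Fin t)`. `κ = t + 1 - a`, `d = D / N ≥ K₁ N^(1/κ)`, so `N ≤ (d / K₁)^κ` and
`n ≥ c₂ c₁ N d^(t+2) / N^2 ≥ c₁ c₂ K₁^κ d^(1+a)`; the graph `Bg` has at most `2 Δ ≤ 2 k₀ d` vertices. So
`K₁ ≥ D₀` and `c₁ c₂ K₁^κ ≥ K_F (2 k₀)^(1+a)` is enough. -/
def LT_stmt : Prop := ∀ (F : BG) (a : ℝ) (t : ℕ), F.Ok → 0 ≤ a → a < 1 → RC F a → 1 ≤ t →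
  ∀ (ι κ : Type) [Fintype ι] [Fintype κ] [Nonempty ι] (k₀ Y₀ : ℝ), 0 < k₀ → 0 < Y₀ →
  ∃ K₁ : ℝ, 0 < K₁ ∧ ∀ (V X Y : Type) [Fintype V] (A : V → V → Prop) (p : ι → V → X)
    (lam : κ → V → V → Y) (Δ : ℕ), Host A p lam → 0 < Fintype.card V →
  (∀ v, dg A Finset.univ v ≤ Δ) →
  (Δ : ℝ) * Fintype.card V ≤ k₀ * ∑ v, (dg A Finset.univ v : ℝ) →
  hh A t ≤ Fintype.card V * (Y₀ * Δ) ^ t →
  K₁ * (Fintype.card V : ℝ) ^ (1 + 1 / ((t : ℝ) + 1 - a)) ≤ ∑ v, (dg A Finset.univ v : ℝ) →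
  ∃ (g : F.W → V) (hub : Bool → V) (P : F.E → ℕ → V), LCopy F t A p lam g hub P

/-! ## D. Closure -/

/-- CP. `LCopy` gives a copy of `L_t(F)`: `inl w ↦ g w`, `inr (inl (e, i)) ↦ P e (i+1)`,
`inr (inr s) ↦ hub s`; the vertex `F.pos t e i` goes to `P e i` for `i ≤ t`. -/
def CP_stmt : Prop := ∀ (F : BG) (V X Y ι κ : Type) (A : V → V → Prop) (p : ι → V → X)
  (lam : κ → V → V → Y) (t : ℕ), 1 ≤ t → Host A p lam → ∀ (g : F.W → V) (hub : Bool → V)
  (P : F.E → ℕ → V), LCopy F t A p lam g hub P → Copy (F.L t) A p lam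

/-- BE1. Subgraphs. (2): a large complete bipartite graph. -/
def BE1_stmt : Prop :=
  (∀ (F F' : BG), Nonempty (BEmb F F') → ∀ (V X Y ι κ : Type) (A : V → V → Prop) (p : ι → V → X)
    (lam : κ → V → V → Y), Copy F' A p lam → Copy F A p lam) ∧
  ∀ F : BG, F.Ok → ∃ q : ℕ, 1 ≤ q ∧ Nonempty (BEmb F (KB q))

/-- BE2. `L_t` of a subgraph: `w ↦ w`, `(e, i) ↦ (e, i)`, hub to hub; edges accordingly. -/
def BE2_stmt : Prop := ∀ (F F' : BG) (t : ℕ), 1 ≤ t → Nonempty (BEmb F F') →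
  Nonempty (BEmb (F.L t) (F'.L t))

/-- CLO (from `RG2_stmt` with exponent `1/(t+1-a)`, `WI_stmt`, HV, HL, LT, CP, BE1, BE2). On the subtype of
the set `U` of RG2: `Δ` = maximal degree, `Δ N ≤ K D`. If `t ≥ 2`, `F ⊆ K_(q,q)`, `X₁` from HV for
`k = t - 1`, and `X₁ Δ h_(t-1) ≤ h_t`: HV, CP, BE1, BE2 (`h_t > 0` by `WI_stmt`). Otherwise
`h_t ≤ X₁ Δ h_(t-1)`, so `h_t ≤ N (X₁ Δ)^t` by HL; for `t = 1`: `h_1 = D ≤ N Δ`. LT with `k₀ = K`,
`Y₀ = X₁` (or `1`), CP. A copy in the host on the subtype is a copy in the host. The constants: `K` of RG2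
first, then `K₁` of LT, `C₂ = K₁`, the result is `C₁`. -/
def CLO_stmt : Prop := ∀ (F : BG) (a : ℝ) (t : ℕ), F.Ok → 0 ≤ a → a < 1 → RC F a → 1 ≤ t →
  HC (F.L t) (1 / ((t : ℝ) + 1 - a))

/-! ## E. Trees and exponents -/

/-- LO1. The simple properties of `L_t(F)`. `lside (pos e i) = [i even]` for `i ≤ t`. -/
def LO1_stmt : Prop := ∀ (F : BG) (t : ℕ), F.Ok → 1 ≤ t →
  (∀ e, (F.L t).side ((F.L t).a e) = true) ∧ (∀ e, (F.L t).side ((F.L t).b e) = false) ∧
  (∀ e e', (F.L t).a e = (F.L t).a e' → (F.L t).b e = (F.L t).b e' → e = e') ∧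
  (∀ w, ∃ e, (F.L t).a e = w ∨ (F.L t).b e = w) ∧ Nonempty (F.L t).E

/-- LO2. Rigidity of `L_t(F)`. Let `s` be a 2-colouring of `L_t(F)`. `s (pos e i) = s (pos e 0) xor [i odd]`.
`t` odd: `s` restricted to `F.W` is a 2-colouring of `F`, so it is `side` or `!side`. `t` even: `s` is equal at
the ends of every edge of `F`, so `s xor side` is a 2-colouring of `F`, it is `side` or `!side`, so `s` is
constant on `F.W`. The hubs have the other colour than the vertices of their side (`F` has an edge, so there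
are vertices of both sides). -/
def LO2_stmt : Prop := ∀ (F : BG) (t : ℕ), F.Ok → 1 ≤ t →
  ∀ s : (F.L t).W → Bool, (∀ e, s ((F.L t).a e) ≠ s ((F.L t).b e)) →
    s = (F.L t).side ∨ s = fun w => !(F.L t).side w

/-- TO. `L_t(T)`: properties and numbers. -/
def TO_stmt : Prop := ∀ (T : TR) (t : ℕ), T.Ok → 1 ≤ t → (T.L t).Ok ∧
  Fintype.card (T.L t).I = Fintype.card T.I + Fintype.card T.E * (t - 1) ∧
  Fintype.card (T.L t).E = Fintype.card T.E * t + Fintype.card T.I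

/-- TB. `L_t(T)` is balanced. Let `S'` be a set of inner vertices of `L_t(T)`, `S` its old vertices, `k_e` the
number of its vertices on the path of `e`, `n_e` the number of edges of this path which meet `S'`. `S'` meets
`|S| + Σ n_e` edges (the legs of the elements of `S`, and the edges of paths), `|S'| = |S| + Σ k_e`. With
`v' = v + (t-1) e`, `e' = t e + v`, `e' - v' = e`:
`v' (|S| + Σ n_e) - e' (|S| + Σ k_e) = Σ_e (v' n_e - e' k_e) - e |S|`. If `e` meets `S` then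
`n_e ≥ k_e + 1` (if the place `0` of the path is in `S'`: the edges `(i, i+1)` for the places `i ≤ t-1` in
`S'`; if the place `t` is in `S'`: the edges `(i-1, i)` for the places `i ≥ 1` in `S'`), so
`v' n_e - e' k_e ≥ v' - e k_e ≥ v' - (t-1) e = v`. Otherwise `k_e = 0 = n_e`, or again `n_e ≥ k_e + 1` (the
edges `(i, i+1)` for the places `i` in `S'` and `(i₀-1, i₀)` for the smallest place `i₀`), so
`v' n_e - e' k_e ≥ 0`. The sum is at least `v * (number of the edges of T which meet S) - e |S| ≥ 0`. -/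
def TB_stmt : Prop := ∀ (T : TR) (t : ℕ), T.Ok → T.Bal → 1 ≤ t → (T.L t).Bal

/-- TE. The power of `L_t(T)` is a subgraph of `L_t` of the power of `T`: roots to roots, `inr s` to the
hub `s`, `(q, inl y)` to `(q, y)`, `(q, inr (e, i))` to the vertex `i` of the path of `(q, e)`; edges
`(q, inl (e, i))` to `inl ((q, e), i)`, `(q, inr y)` to `inr (inr (q, y))`. -/
def TE_stmt : Prop := ∀ (T : TR) (t p : ℕ), T.Ok → 1 ≤ t →
  Nonempty (BEmb ((T.L t).pB p) ((T.pB p).L t))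

/-- BA. The start. `RC (Star p) 0`: a vertex of degree at least `p`. -/
def BA_stmt : Prop := T0.Ok ∧ T0.Bal ∧ ∀ p : ℕ, 1 ≤ p →
  (Star p).Ok ∧ Nonempty (BEmb (T0.pB p) (Star p)) ∧ RC (Star p) 0

/-- `a` is good: there is a balanced rooted graph with `|I| / |E| = 1 - a` whose powers are contained in
graphs `F` with `RC F a` -/
def GoodR (a : ℚ) : Prop := ∃ T : TR, T.Ok ∧ T.Bal ∧ 1 ≤ Fintype.card T.I ∧
  1 ≤ Fintype.card T.E ∧ (Fintype.card T.I : ℚ) = Fintype.card T.E * (1 - a) ∧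
  ∀ p : ℕ, 1 ≤ p → ∃ F : BG, F.Ok ∧ Nonempty (BEmb (T.pB p) F) ∧ RC F a

/-- the same with `HC` -/
def GoodH (a : ℚ) : Prop := ∃ T : TR, T.Ok ∧ T.Bal ∧ 1 ≤ Fintype.card T.I ∧
  1 ≤ Fintype.card T.E ∧ (Fintype.card T.I : ℚ) = Fintype.card T.E * (1 - a) ∧
  ∀ p : ℕ, 1 ≤ p → ∃ F : BG, F.Ok ∧ Nonempty (BEmb (T.pB p) F) ∧ HC F a

/-- GS (from CLO, LO1, LO2, BE2, TO, TB, TE). The step. `T' = T.L t`, `F' = F.L t`;
`(|I| + |E| (t-1)) / (|E| t + |I|) = (t - a) / (t + 1 - a) = 1 - 1 / (t + 1 - a)`. `BEmb` is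
transitive. -/
def GS_stmt : Prop := ∀ (a : ℚ) (t : ℕ), 0 ≤ a → a < 1 → 1 ≤ t → GoodR a →
  GoodH (1 / ((t : ℚ) + 1 - a))

/-- GA (from BA, GS). Induction on the denominator. `a = 0`: BA. `a = P/Q`, `0 < P < Q` coprime:
`c = ⌈Q/P⌉`, `t = c - 1 ≥ 1`, `a₁ = c - Q/P ∈ [0, 1)`, its denominator is at most `P < Q`, and
`a = 1 / (t + 1 - a₁)`. `HC F a → RC F a` (take `ι = Unit`). -/
def GA_stmt : Prop := (∀ a : ℚ, 0 ≤ a → a < 1 → GoodR a) ∧ ∀ a : ℚ, 0 < a → a < 1 → GoodH a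

/-! ## F. Colourings -/

/-- the two labels of the pair graph -/
def pq {V : Type} (i : Bool) (u : V × V) : V := if i = true then u.1 else u.2

/-- no edge label -/
def nol {V : Type} (j : Empty) (_ _ : V) : Unit := j.elim

/-- PHo. The pair graph is a host (see `TRK_stmt`). -/
def PHo_stmt : Prop := ∀ (V K : Type) (χ : V → V → K) (ω : V → Bool), PC χ →
  Host (Gb χ ω) (pq (V := V)) (nol (V := V × V))

/-- CV. From `TR` to `Rooted`. `T'` is `T` with `R`, `I`, `E` replaced by `Fin` (`Fintype.equivFin`).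
`Balanced`: the filter set is transported. The powers are 2-coloured by `side`. Two copies: if `g` is a copy
of `F` in the pair graph and `T.pB p` is a subgraph of `F` then `φ`, `ψ` are the entries of `g`;
`φ u ≠ ψ v`: every vertex of `F` lies on an edge (`cov`), so first entries are in the part `true` of `ω`
and second entries in the part `false`. -/
def CV_stmt : Prop := ∀ T : TR, T.Ok → ∃ T' : Rooted, T'.v = Fintype.card T.I ∧
  T'.e = Fintype.card T.E ∧ (T.Bal → T'.Balanced) ∧ (∀ p, (T'.pw p).Colorable 2) ∧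
  ∀ (p : ℕ) (F : BG), F.Ok → Nonempty (BEmb (T.pB p) F) → ∀ (V K : Type) (χ : V → V → K)
    (ω : V → Bool), Copy F (Gb χ ω) (pq (V := V)) (nol (V := V × V)) → Two (T'.pw p) χ

/-- LX (from `EC_stmt`, `PT_stmt`, PHo). If `4 m > n (n - 1)` the bound is trivial. Otherwise the sum of
the degrees of `Gb χ ω` is at least `n^4 / (128 m)`, and if `m < c n^(2-2a)` this is at least
`(n^2)^(1+a) / (128 c)`; `HC F a` for `ι = Bool`, `κ = Empty`; see `LBK_stmt`. -/
def LX_stmt : Prop := ∀ (F : BG) (a : ℝ), 0 < a → a < 1 → HC F a → ∃ c : ℝ, 0 < c ∧ ∃ N : ℕ,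
  ∀ n : ℕ, N ≤ n → ∀ m : ℕ, ∀ χ : Fin n → Fin n → Fin m, PC χ →
    (∀ ω : Fin n → Bool, ¬ Copy F (Gb χ ω) (pq (V := Fin n)) (nol (V := Fin n × Fin n))) →
    c * (n : ℝ) ^ (2 - 2 * a) ≤ (m : ℝ)

/-- FN (from GA with `a = 1 - r/2`, CV, LX, `UB_stmt`, `MONO_stmt`, `ISO_stmt`). `2 v / e = 2 (1 - a) = r`
and `e ≤ 2 v`. `H = T'.pw (p + 1)` for the `p` of `UB_stmt` (`MONO_stmt`). -/
def FN_stmt : Prop := ∀ r : ℚ, 1 < r → r < 2 →
  ∃ k : ℕ, ∃ H : SimpleGraph (Fin k), H.Colorable 2 ∧ Law H (r : ℝ)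

end

end Pool.Agent.RXF
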