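import Pool.Agent.helper23.F2.Spec

/-!
# MP_26dbae_co (S07735): trees, exponents, pair graphs: statements of the modules

Definitions of `Pool/Agent/helper23/F2/Defs.lean` (`HG`, `RT`, `Lt`, `pwH`, `EmbH`, `LG`, `ST`) and of
`Pool/Agent/helper23/TH/Defs.lean` (`PC`, `Two`, `Law`, `Rooted`). Any statement of this file, of
`Pool/Agent/helper23/F2/Spec.lean`, of `Pool/Agent/helper23/TH/Spec.lean` and of
`Pool/Agent/helper90/KS/Spec.lean` may be used as a hypothesis of a module (no circles).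
-/

set_option autoImplicit false

open scoped BigOperators

namespace Pool.Agent.F2T

open Pool.Agent.helper23.TH Pool.Agent.F2

noncomputable section

open Classical

/-! ## Trees -/

/-- TB. `L_t(T)` is balanced. Let `S'` be a set of inner vertices of `L_t(T)`, `S` its old vertices, `k_e` the
number of its vertices on the path of `e`, `n_e` the number of edges of this path which meet `S'`. `S'` meets
`|S| + Σ n_e` edges (the edges `inl w`, `w ∈ S`, and the edges of paths), `|S'| = |S| + Σ k_e`. With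
`v = |I|`, `e = |E|`, `v' = v + (t-1) e`, `e' = t e + v`, `e' - v' = e`:
`v' (|S| + Σ n_e) - e' (|S| + Σ k_e) = Σ_e (v' n_e - e' k_e) - e |S|`. If the edge `e` meets `S` then
`n_e ≥ k_e + 1` (if the place `0` of the path is in `S'`: the edges `(i, i+1)` for the places `i ≤ t-1` in
`S'`; if the place `t` is in `S'`: the edges `(i-1, i)` for the places `i ≥ 1` in `S'`), so
`v' n_e - e' k_e ≥ v' - e k_e ≥ v' - (t-1) e = v`. Otherwise `k_e = 0 = n_e`, or again `n_e ≥ k_e + 1` (the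
edges `(i, i+1)` for the places `i` in `S'` and `(i₀-1, i₀)` for the smallest place `i₀`), so
`v' n_e - e' k_e ≥ 0`. The sum is at least `v * T.es S - e |S| ≥ 0`. -/
def TB_stmt : Prop := ∀ (T : RT) (t : ℕ), T.Bal → 1 ≤ t → (T.Lt t).Bal

/-- TE. The power of `L_t(T)` is a part of `L_t` of the power of `T`: `inl (inl r) ↦ inl (inl (inl r))`,
`inl (inr b) ↦ inl (inr b)`, `inr (j, inl y) ↦ inl (inl (inr (j, y)))`, `inr (j, inr (e, k)) ↦ inr ((j, e), k)`;
edges `(j, inl y) ↦ inl (inr (j, y))`, `(j, inr (e, i)) ↦ inr ((j, e), i)`. -/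
def TE_stmt : Prop := ∀ (T : RT) (t p : ℕ), 1 ≤ t → EmbH ((T.Lt t).pwH p) ((T.pwH p).Lt t)

/-- `a` is good: there is a balanced rooted graph with `|I| / |E| = 1 - a` whose powers satisfy `ST` -/
def Good (a : ℚ) : Prop := ∃ T : RT, T.Bal ∧ 1 ≤ Fintype.card T.I ∧ 1 ≤ Fintype.card T.E ∧
  (Fintype.card T.I : ℚ) = Fintype.card T.E * (1 - a) ∧ ∀ p : ℕ, 1 ≤ p → ST (T.pwH p) a

/-- TS (from TB, TE, `THM1_stmt`, `SUB_stmt`). The step: `T' = T.Lt t`, `|I'| = |I| + |E| (t-1)`,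
`|E'| = |I| + |E| t`, so `|I'| / |E'| = (t - a) / (t + 1 - a) = 1 - 1 / (t + 1 - a)`. -/
def TS_stmt : Prop := ∀ (a : ℚ) (t : ℕ), 0 ≤ a → a < 1 → 1 ≤ t → Good a → Good (1 / ((t : ℚ) + 1 - a))

/-- T0 (from `STAR_stmt`). The start `starT`: `Bal`, `|I| = |E| = 1`. -/
def T0_stmt : Prop := Good 0

/-- TA. Induction on the denominator. `a = 0`: first hypothesis. `a = P/Q`, `0 < P < Q` coprime:
`c = ⌈Q/P⌉ ≥ 2`, `t = c - 1`, `a₁ = c - Q/P ∈ [0, 1)`; its denominator is at most `P < Q`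
(`a₁ = (c P - Q) / P`), and `a = 1 / (t + 1 - a₁)`. -/
def TA_stmt : Prop := ∀ S : ℚ → Prop, S 0 →
  (∀ (a : ℚ) (t : ℕ), 0 ≤ a → a < 1 → 1 ≤ t → S a → S (1 / ((t : ℚ) + 1 - a))) →
  ∀ a : ℚ, 0 ≤ a → a < 1 → S a

/-- two disjoint colour isomorphic copies -/
def TwoH {V K : Type} (H : HG) (χ : V → V → K) : Prop := ∃ φ ψ : H.W → V, Function.Injective φ ∧
  Function.Injective ψ ∧ (∀ u v, φ u ≠ ψ v) ∧
  ∀ e, χ (φ (H.ed e).1) (φ (H.ed e).2) = χ (ψ (H.ed e).1) (ψ (H.ed e).2)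

/-- TV. From `RT` to `Rooted`: replace `R`, `I`, `E` by `Fin` (`Fintype.equivFin`). `loopless` from `ok`,
`Balanced`: the set `S` and the filter set are transported. The powers are 2-coloured by `pcol`
(`Bool` is `Fin 2`). Last part: compose `φ`, `ψ` with the equivalence; an edge of `T'.pw p` is an edge of
`T.pwH p` in one of the two directions. -/
def TV_stmt : Prop := ∀ T : RT, ∃ T' : Rooted, T'.v = Fintype.card T.I ∧ T'.e = Fintype.card T.E ∧
  (T.Bal → T'.Balanced) ∧ (∀ p, (T'.pw p).Colorable 2) ∧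
  ∀ (p : ℕ) (V K : Type) (χ : V → V → K), (∀ a b, χ a b = χ b a) → TwoH (T.pwH p) χ → Two (T'.pw p) χ

/-! ## Pair graphs -/

/-- PB. A random partition: every edge survives for half of the functions `c` (or: take the `c` with the
largest sum; flipping one vertex shows that every vertex keeps half of its neighbours). -/
def PB_stmt : Prop := ∀ (V : Type) [Fintype V] (A : V → V → Prop), (∀ u v, A u v → A v u) →
  (∀ v, ¬ A v v) → ∃ c : V → Bool, ∑ v, dg A Finset.univ v ≤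
    2 * ∑ v, dg (fun u w => A u w ∧ c u ≠ c w) Finset.univ v

/-- PG. The pair graph as labelled graph: names `inr u`, labels of the vertex `u`: `inl u.1`, `inl u.2`,
`inr u`; no labels of edges. `sp` with `s = 2`: for `x = inl a` the neighbours `w` of `v` with `w.1 = a` (at most
one: `χ v.2 w.2 = χ v.1 a` determines `w.2` by `PC.proper`) or `w.2 = a` (at most one); for `x = inr w₀` only
`w₀`. A conflict-free copy gives `φ`, `ψ` (first and second entries): the label sets of different vertices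
are disjoint, and `u.1 ≠ u.2`. -/
def PG_stmt : Prop := ∀ (V K : Type) [Fintype V] (χ : V → V → K), PC χ →
  ∀ c : {u : V × V // u.1 ≠ u.2} → Bool,
  ∃ G : LG {u : V × V // u.1 ≠ u.2} (V ⊕ {u : V × V // u.1 ≠ u.2}) 3 2,
    (∀ u w, G.A u w ↔ (Ga χ u.1 w.1 ∧ c u ≠ c w)) ∧ ∀ H : HG, G.CF H → TwoH H χ

/-- PL (from `EC_stmt`, PB, PG). Lower bound. If `4 m > n (n - 1)` the bound is trivial. Otherwise
`∑ dg (Ga χ) ≥ n^4 / (8 m)` (EC), all edges of `Ga χ` are between pairs with different entries, PB gives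
`c` with `∑ dg G.A ≥ n^4 / (16 m)` for the graph `G` of PG, which has `n (n-1) ≤ n^2` vertices. If
`m < c n^(2-2a)` with `c = min (1 / (16 K)) (1/8)`, `K` from `ST H a` for `b = 3`, `s = 2`, then
`n^4 / (16 m) ≥ K (n^2)^(1+a)`. -/
def PL_stmt : Prop := ∀ (H : HG) (a : ℝ), 0 < a → a < 1 → ST H a → ∃ c : ℝ, 0 < c ∧ ∃ N : ℕ,
  ∀ n : ℕ, N ≤ n → ∀ m : ℕ, ∀ χ : Fin n → Fin n → Fin m, PC χ → ¬ TwoH H χ →
    c * (n : ℝ) ^ (2 - 2 * a) ≤ (m : ℝ)

/-- FN (from TS, T0, TA, TV, PL, `UB_stmt`, `MONO_stmt`, `ISO_stmt`). `a = 1 - r/2`, `2 v / e = 2 (1 - a) = r`,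
`e ≤ 2 v`. `H = T'.pw (p + 1)` for the `p` of `UB_stmt` (`MONO_stmt`: `Two (T'.pw (p+1)) χ → Two (T'.pw p) χ`).
See `MAIN_theta` in Pool/Agent/helper23/TH/Main.lean. -/
def FN_stmt : Prop := ∀ r : ℚ, 1 < r → r < 2 →
  ∃ k : ℕ, ∃ H : SimpleGraph (Fin k), H.Colorable 2 ∧ Law H (r : ℝ)

end

end Pool.Agent.F2T
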